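import Pool.Agent.CH.Half75

/-!
Partial answer to Q1 of MP_d8d446_co: a graph on `n` vertices with an edge colouring with at most
`K n` colours in which every `C₄` is rainbow has edge density at most `1/2 + o(1)` between any two
vertex sets of linear size, and at most `(1/4 + o(1)) n ^ 2` edges.
-/

set_option autoImplicit false

open N2633a9ba

namespace Pool.Agent.Results.MP_d8d446_co.HalfDensity

/-- `color` is an edge colouring of `G` with colours in `Fin m` in which every `C₄` of `G` is
rainbow (for `m = n` this is the frozen `C4RainbowColoring`). -/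
def RainbowC4 {n m : ℕ} (G : SimpleGraph (Fin n)) (color : Fin n → Fin n → Fin m) : Prop :=
  (∀ a b, G.Adj a b → color a b = color b a) ∧
    ∀ a b c d, IsC4 G a b c d →
      PairwiseDistinct4 (color a b) (color b c) (color c d) (color d a)

open Classical in
/-- For all `K` and `δ > 0` and all large `n`: if a graph on `n` vertices has an edge colouring with
at most `K n` colours in which every `C₄` is rainbow, then for all vertex sets `A`, `B` at most
`|A| |B| / 2 + δ n ^ 2` pairs in `A × B` are edges, and the graph has at most `(1/4 + δ) n ^ 2`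
edges. -/
theorem result (K δ : ℝ) (hδ : 0 < δ) : ∃ n₀ : ℕ, ∀ n ≥ n₀, ∀ (m : ℕ) (G : SimpleGraph (Fin n))
    (color : Fin n → Fin n → Fin m), (m : ℝ) ≤ K * n → RainbowC4 G color →
    (∀ A B : Finset (Fin n), (((A ×ˢ B).filter fun e => G.Adj e.1 e.2).card : ℝ) ≤
      (A.card : ℝ) * B.card / 2 + δ * (n : ℝ) ^ 2) ∧
    (G.edgeSet.ncard : ℝ) ≤ (1 / 4 + δ) * (n : ℝ) ^ 2 := by
  obtain ⟨n₀, h⟩ := CH.half K δ hδ
  exact ⟨n₀, fun n hn m G color hm hc => h n hn m G color hm hc.1 hc.2⟩

end Pool.Agent.Results.MP_d8d446_co.HalfDensity
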