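import Pool.Agent.Helper14.RC4.Final

/-!
Partial answer to Q1 of MP_d8d446_co: the VC dimension is of the largest possible order `log n`.
-/

set_option autoImplicit false

open N2633a9ba

namespace Pool.Agent.Results.MP_d8d446_co.VCDimension

/-- For every `ε > 0` there is `c > 0` such that for all large `n` every graph on `n` vertices with
at least `ε n ^ 2` edges that has an edge colouring with `n` colours in which every `C₄` is rainbow
has a set `X` of at least `c log n` vertices that is shattered by the neighbourhoods of `G`. -/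
theorem result (ε : ℝ) (hε : 0 < ε) :
    ∃ c : ℝ, 0 < c ∧ ∃ n₀ : ℕ, ∀ n ≥ n₀, ∀ (G : SimpleGraph (Fin n))
      (color : Fin n → Fin n → Fin n),
      ε * (n : ℝ) ^ 2 ≤ (G.edgeSet.ncard : ℝ) → C4RainbowColoring G color →
        ∃ X : Finset (Fin n), c * Real.log n ≤ (X.card : ℝ) ∧
          ∀ Y ⊆ X, ∃ v, ∀ x ∈ X, G.Adj v x ↔ x ∈ Y :=
  Pool.Agent.Helper14.RC4.shattered hε

end Pool.Agent.Results.MP_d8d446_co.VCDimension
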